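import Pool.Agent.Helper88.EL.Stmts
import Pool.Agent.Helper88.EL.Basic

/-!
# SL_2(ℤ[x,1/x]) = E_2(ℤ[x,1/x]): module EL-TOP (CollapseStmt and AllConnStmt)
-/

set_option autoImplicit false

namespace Pool.Agent.Helper55.EL

open LaurentPolynomial Pool.Agent.Helper88.EL

/-- The class of `h` (through frames of measure less than `t`) contains `k`. -/
def Cls (t : ℕ) (h k : M2) : Prop := ∃ v : Q2, v ≠ 0 ∧ ∃ p, OnL p k ∧ Same t (vec h v) p

theorem good_of_onL {t : ℕ} {p : V} {g : M2} (hg : Fr t g) (hp : OnL p g) : Good t p := ⟨g, hg, hp⟩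

/-- if the shared line `p` is in the class then so is `h'` -/
theorem cls_of_same {t : ℕ} {h' k : M2} {p q : V} (hp : OnL p h') (hq : OnL q k)
    (H : Same t p q) : Cls t h' k := by
  obtain ⟨v', hv', i, rfl⟩ := hp
  exact ⟨v', hv', q, hq, (same_smul_T_left i).1 H⟩

theorem cls_step (h1 : Claim1Stmt) (h2 : Claim2Stmt) {t : ℕ} (ht : 2 ≤ t) {h h' k : M2}
    (H : St (t + 1) h h') (hc : Cls t h k) : Cls t h' k := by
  obtain ⟨hh, hh', p, hp, hp'⟩ := H
  obtain ⟨v, hv, q, hq, hs⟩ := hc
  by_cases hlt : tt (Lat h) < t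
  · have hF : Fr t h := ⟨hh.1, hlt⟩
    exact cls_of_same hp' hq ((same_of_frame hF hp (onL_vec h hv)).trans hs)
  · have hte : tt (Lat h) = t := by
      have := hh.2
      omega
    by_cases hgood : Good t p
    · obtain ⟨w, hw, j, hpw⟩ := hp
      have hgw : Good t (vec h w) := by
        rw [hpw] at hgood
        exact (good_smul_T j).1 hgood
      have hsw : Same t (vec h v) (vec h w) := by
        have := h1 h hh.1 v w hv hw (by rw [hte]; exact hs.left) (by rw [hte]; exact hgw)
        rwa [hte] at this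
      have hsp : Same t p (vec h v) := by
        rw [hpw]
        exact (same_smul_T_left j).2 hsw.symm
      exact cls_of_same hp' hq (hsp.trans hs)
    · have hte' : tt (Lat h') = t := by
        by_contra hne
        have := hh'.2
        exact hgood (good_of_onL ⟨hh'.1, by omega⟩ hp')
      obtain ⟨w, hw, hsw⟩ := h2 h h' hh.1 hh'.1 (by rw [hte, hte']) (by rw [hte]; exact ht) p hp hp'
        (by rw [hte]; exact hgood) v hv (by rw [hte]; exact hs.left)
      rw [hte] at hsw
      exact ⟨w, hw, q, hq, hsw.symm.trans hs⟩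

theorem cls_conn (h1 : Claim1Stmt) (h2 : Claim2Stmt) {t : ℕ} (ht : 2 ≤ t) {g h k : M2}
    (H : Conn (t + 1) g h) (hc : Cls t g k) : Cls t h k := by
  induction H with
  | single H => exact cls_step h1 h2 ht H hc
  | tail _ H ih => exact cls_step h1 h2 ht H ih

theorem collapse (h1 : Claim1Stmt) (h2 : Claim2Stmt) : CollapseStmt := by
  intro t ht g h hg hh H
  have hc : Cls t g g := ⟨e1, e1_ne_zero, vec g e1, onL_vec g e1_ne_zero,
    same_of_frame hg (onL_vec g e1_ne_zero) (onL_vec g e1_ne_zero)⟩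
  obtain ⟨v, hv, p, hp, a, b, ha, hb, hab⟩ := cls_conn h1 h2 ht H hc
  have h3 : Conn t g b := conn_of_share hg hab.right hp hb
  have h4 : Conn t a h := conn_of_share hab.left hh ha (onL_vec h hv)
  exact h3.trans (hab.symm.trans h4)

theorem allConn (hI : FrIndStmt) : AllConnStmt := by
  intro g hg
  have key : ∀ g, IsFr g → (IsFr g ∧ ∃ t, Conn t 1 g) := by
    apply hI
    · exact ⟨isFr_one, tt (Lat 1) + 1, conn_refl ⟨isFr_one, Nat.lt_succ_self _⟩⟩
    · rintro g u u' huu ⟨hg, t, ht⟩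
      refine ⟨hg.mul_bas huu, max t (tt (Lat (g * bas u u')) + 1), ?_⟩
      have hF : Fr (max t (tt (Lat (g * bas u u')) + 1)) (g * bas u u') :=
        ⟨hg.mul_bas huu, lt_of_lt_of_le (Nat.lt_succ_self _) (le_max_right _ _)⟩
      refine (ht.mono (le_max_left _ _)).trans
        (conn_of_share (ht.right.mono (le_max_left _ _)) hF (p := vec (g * bas u u') e1) ?_ ?_)
      · exact (onL_mul_bas huu).1 (onL_vec _ e1_ne_zero)
      · exact onL_vec _ e1_ne_zero
    · rintro g ⟨hg, t, ht⟩
      refine ⟨hg.mul_Dm 1, max t (tt (Lat (g * Dm 1)) + 1), ?_⟩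
      have hF : Fr (max t (tt (Lat (g * Dm 1)) + 1)) (g * Dm 1) :=
        ⟨hg.mul_Dm 1, lt_of_lt_of_le (Nat.lt_succ_self _) (le_max_right _ _)⟩
      refine (ht.mono (le_max_left _ _)).trans
        (conn_of_share (ht.right.mono (le_max_left _ _)) hF (p := vec g e1) ?_ ?_)
      · exact onL_vec _ e1_ne_zero
      · rw [← vec_mul_Dm_e1 g 1]
        exact onL_vec _ e1_ne_zero
    · rintro g ⟨hg, t, ht⟩
      refine ⟨hg.mul_Dm (-1), max t (tt (Lat (g * Dm (-1))) + 1), ?_⟩
      have hF : Fr (max t (tt (Lat (g * Dm (-1))) + 1)) (g * Dm (-1)) :=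
        ⟨hg.mul_Dm (-1), lt_of_lt_of_le (Nat.lt_succ_self _) (le_max_right _ _)⟩
      refine (ht.mono (le_max_left _ _)).trans
        (conn_of_share (ht.right.mono (le_max_left _ _)) hF (p := vec g e1) ?_ ?_)
      · exact onL_vec _ e1_ne_zero
      · rw [← vec_mul_Dm_e1 g (-1)]
        exact onL_vec _ e1_ne_zero
  exact (key g hg).2

end Pool.Agent.Helper55.EL
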